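import Mathlib
import Pool.Agent.H3.Refl.Targets

/-!
# Polynomials in a Singer matrix
-/

namespace Pool.Agent.H20.Refl

open Pool.Agent.H3.Refl Polynomial Matrix

variable {F : Type} [Field F] [Fintype F] {n : ℕ} {β C : Matrix (Fin (2 * n)) (Fin (2 * n)) F} {ε : F}

section

variable (h : SingerForm n β C ε)
include h

lemma nz : NeZero (2 * n) := ⟨by have := h.n_pos; omega⟩

omit h in
lemma aeval_mod (f : F[X]) : aeval C f = aeval C (f %ₘ C.charpoly) := by
  have h1 := modByMonic_add_div f C.charpoly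
  conv_lhs => rw [← h1]
  rw [map_add, map_mul, Matrix.aeval_self_charpoly, zero_mul, add_zero]

lemma natDegree_mod_lt (f : F[X]) : (f %ₘ C.charpoly).natDegree < 2 * n := by
  have hc : C.charpoly.natDegree = 2 * n := by
    rw [Matrix.charpoly_natDegree_eq_dim, Fintype.card_fin]
  have h1 : C.charpoly ≠ 1 := by
    intro h1
    rw [h1, natDegree_one] at hc
    have := h.n_pos
    omega
  have := natDegree_modByMonic_lt f (Matrix.charpoly_monic C) h1
  omega

lemma aeval_zero_or_unit (f : F[X]) : aeval C f = 0 ∨ IsUnit (aeval C f) := by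
  rw [aeval_mod f]
  by_cases h0 : f %ₘ C.charpoly = 0
  · left; rw [h0, map_zero]
  · right; exact h.irr _ h0 (natDegree_mod_lt h f)

lemma one_ne_zero_mat : (1 : Matrix (Fin (2 * n)) (Fin (2 * n)) F) ≠ 0 := by
  have := nz h
  exact one_ne_zero

lemma irreducible_charpoly : Irreducible C.charpoly := by
  have := nz h
  have hc : C.charpoly.natDegree = 2 * n := by
    rw [Matrix.charpoly_natDegree_eq_dim, Fintype.card_fin]
  have hn := h.n_pos
  rw [Monic.irreducible_iff_natDegree (Matrix.charpoly_monic C)]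
  refine ⟨?_, ?_⟩
  · intro h1
    rw [h1, natDegree_one] at hc
    omega
  · intro f g hf hg hfg
    by_contra hcon
    push Not at hcon
    have hdeg : f.natDegree + g.natDegree = 2 * n := by
      rw [← natDegree_mul hf.ne_zero hg.ne_zero, hfg, hc]
    have u1 := h.irr f hf.ne_zero (by omega)
    have u2 := h.irr g hg.ne_zero (by omega)
    have h3 : aeval C f * aeval C g = 0 := by
      rw [← map_mul, hfg, Matrix.aeval_self_charpoly]
    have u3 := u1.mul u2
    rw [h3] at u3
    exact not_isUnit_zero u3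

lemma C_pow : C ^ (Fintype.card F ^ n + 1) = 1 := by
  rw [← h.order]; exact pow_orderOf_eq_one C

lemma transC_mul : C.transpose * β = β * C ^ (Fintype.card F ^ n) := by
  have h1 : C.transpose * β * C * C ^ (Fintype.card F ^ n) = β * C ^ (Fintype.card F ^ n) := by
    rw [h.isom]
  rw [mul_assoc (C.transpose * β), ← pow_succ', C_pow h, mul_one] at h1
  exact h1

lemma aeval_transpose_mul (f : F[X]) :
    (aeval C f).transpose * β = β * aeval (C ^ (Fintype.card F ^ n)) f := by
  have hpow : ∀ k : ℕ, (C ^ k).transpose * β = β * (C ^ (Fintype.card F ^ n)) ^ k := by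
    intro k
    induction k with
    | zero => simp
    | succ k ih =>
      rw [pow_succ, Matrix.transpose_mul, mul_assoc, ih, ← mul_assoc, transC_mul h, mul_assoc,
        ← pow_succ']
  induction f using Polynomial.induction_on' with
  | add p q hp hq => rw [map_add, map_add, transpose_add, add_mul, mul_add, hp, hq]
  | monomial k a =>
    simp only [aeval_monomial, Algebra.algebraMap_eq_smul_one, smul_mul_assoc, one_mul,
      transpose_smul, mul_smul_comm, hpow]

omit h in
lemma aeval_pow_card (f : F[X]) :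
    aeval (C ^ (Fintype.card F ^ n)) f = (aeval C f) ^ (Fintype.card F ^ n) := by
  have key : ∀ k : ℕ, aeval (C ^ (Fintype.card F ^ k)) f = (aeval C f) ^ (Fintype.card F ^ k) := by
    intro k
    induction k generalizing f with
    | zero => simp
    | succ k ih =>
      have e1 : aeval (C ^ (Fintype.card F ^ (k + 1))) f =
          aeval (C ^ (Fintype.card F ^ k)) (expand F (Fintype.card F) f) := by
        rw [expand_aeval, ← pow_mul, ← pow_succ]
      rw [e1, FiniteField.expand_card, ih, map_pow, ← pow_mul, ← pow_succ']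
  exact key n

lemma norm_identity (f : F[X]) : (aeval C f).transpose * β * aeval C f =
    β * (aeval C f) ^ (Fintype.card F ^ n + 1) := by
  rw [aeval_transpose_mul h, aeval_pow_card, mul_assoc, ← pow_succ]

/-- The field generated by `C`. -/
lemma exists_norm (α : F) (hα : α ≠ 0) : ∃ f : F[X],
    (aeval C f) ^ (Fintype.card F ^ n + 1) = α • (1 : Matrix (Fin (2 * n)) (Fin (2 * n)) F) := by
  have hirr := irreducible_charpoly h
  have hfact : Fact (Irreducible C.charpoly) := ⟨hirr⟩
  set q := Fintype.card F with hq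
  set Q := q ^ n with hQ
  have hq2 : 2 ≤ q := Fintype.one_lt_card
  have hn := h.n_pos
  have hQ2 : 2 ≤ Q := by
    calc 2 ≤ q := hq2
      _ = q ^ 1 := (pow_one q).symm
      _ ≤ q ^ n := Nat.pow_le_pow_right (by omega) hn
  let E := AdjoinRoot C.charpoly
  have hfin : Module.Finite F E := (AdjoinRoot.powerBasis hirr.ne_zero).finite
  have hEfin : Finite E := Module.finite_of_finite F
  have hcard : Nat.card E = Q * Q := by
    rw [Module.natCard_eq_pow_finrank (K := F), (AdjoinRoot.powerBasis hirr.ne_zero).finrank,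
      AdjoinRoot.powerBasis_dim, Matrix.charpoly_natDegree_eq_dim, Fintype.card_fin,
      Nat.card_eq_fintype_card, ← hq, hQ, ← pow_add]
    congr 1
    ring
  have hEfintype : Fintype E := Fintype.ofFinite E
  have hcardu : Nat.card Eˣ = (Q - 1) * (Q + 1) := by
    rw [Nat.card_units, hcard]
    obtain ⟨Q', hQ'⟩ : ∃ Q', Q = Q' + 1 := ⟨Q - 1, by omega⟩
    rw [hQ']
    simp only [Nat.add_sub_cancel]
    rw [Nat.sub_eq_iff_eq_add (by nlinarith)]
    ring
  -- the generator
  obtain ⟨g, hg⟩ := IsCyclic.exists_generator (α := Eˣ)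
  have hord : orderOf g = (Q - 1) * (Q + 1) := by
    rw [orderOf_eq_card_of_forall_mem_zpowers hg, hcardu]
  have hαu : algebraMap F E α ≠ 0 := by
    rw [Ne, map_eq_zero_iff _ (algebraMap F E).injective]
    exact hα
  set x : Eˣ := Units.mk0 _ hαu with hx
  have hαq : α ^ (Q - 1) = 1 := by
    have h1 : α ^ (q - 1) = 1 := FiniteField.pow_card_sub_one_eq_one α hα
    have h2 : q - 1 ∣ Q - 1 := by
      have := Nat.sub_dvd_pow_sub_pow q 1 n
      rwa [one_pow] at this
    obtain ⟨k, hk⟩ := h2
    rw [hk, pow_mul, h1, one_pow]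
  have hxq : x ^ (Q - 1) = 1 := by
    apply Units.ext
    rw [Units.val_pow_eq_pow_val, hx, Units.val_mk0, ← map_pow, hαq, map_one, Units.val_one]
  obtain ⟨k, hk⟩ := (mem_powers_iff_mem_zpowers.2 (hg x))
  simp only at hk
  have hdvd : (Q + 1) ∣ k := by
    rw [← hk, ← pow_mul] at hxq
    have h1 := orderOf_dvd_of_pow_eq_one hxq
    rw [hord, mul_comm k] at h1
    exact Nat.dvd_of_mul_dvd_mul_left (by omega) h1
  obtain ⟨l, hl⟩ := hdvd
  obtain ⟨f, hf⟩ := AdjoinRoot.mk_surjective ((g ^ l : Eˣ) : E)
  refine ⟨f, ?_⟩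
  have h2 : (AdjoinRoot.mk C.charpoly f) ^ (Q + 1) = algebraMap F E α := by
    rw [hf, ← Units.val_pow_eq_pow_val, ← pow_mul, mul_comm l, ← hl, hk, hx, Units.val_mk0]
  have h3 : AdjoinRoot.mk C.charpoly (f ^ (Q + 1) - Polynomial.C α) = 0 := by
    rw [map_sub, map_pow, h2, AdjoinRoot.mk_C, AdjoinRoot.algebraMap_eq]
    exact sub_self _
  rw [AdjoinRoot.mk_eq_zero] at h3
  obtain ⟨g', hg'⟩ := h3
  have h4 : aeval C (f ^ (Q + 1) - Polynomial.C α) = 0 := by
    rw [hg', map_mul, Matrix.aeval_self_charpoly, zero_mul]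
  rw [map_sub, map_pow, aeval_C, sub_eq_zero, Algebra.algebraMap_eq_smul_one] at h4
  exact h4

end

end Pool.Agent.H20.Refl
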