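import Mathlib
import Pool.Agent.H20.Refl.Poly

/-!
# Matrices acting on vectors with entries in a module, and the radical
-/

namespace Pool.Agent.H20.Refl

open Pool.Agent.H3.Refl Polynomial Matrix

section Act

variable {F : Type} [Field F] {ι : Type} [Fintype ι] {U : Type} [AddCommGroup U]
  [Module F U]

/-- The action of a matrix on the vectors with entries in `U`. -/
def act (A : Matrix ι ι F) : (ι → U) →ₗ[F] (ι → U) where
  toFun x i := ∑ k, A i k • x k
  map_add' x y := by
    funext i
    simp [smul_add, Finset.sum_add_distrib]
  map_smul' c x := by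
    funext i
    simp [Finset.smul_sum, smul_comm c]

lemma act_apply (A : Matrix ι ι F) (x : ι → U) (i : ι) : act A x i = ∑ k, A i k • x k := rfl

lemma act_mul (A B : Matrix ι ι F) (x : ι → U) : act (A * B) x = act A (act B x) := by
  funext i
  simp only [act_apply, Matrix.mul_apply, Finset.sum_smul, Finset.smul_sum, smul_smul]
  rw [Finset.sum_comm]

lemma act_add (A B : Matrix ι ι F) (x : ι → U) : act (A + B) x = act A x + act B x := by
  funext i
  simp only [act_apply, Matrix.add_apply, add_smul, Finset.sum_add_distrib, Pi.add_apply]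

lemma act_smul (c : F) (A : Matrix ι ι F) (x : ι → U) : act (c • A) x = c • act A x := by
  funext i
  simp only [act_apply, Matrix.smul_apply, smul_assoc, Finset.smul_sum, Pi.smul_apply]

lemma act_zero (x : ι → U) : act (0 : Matrix ι ι F) x = 0 := by
  funext i
  simp [act_apply]

lemma act_sum {κ : Type} (s : Finset κ) (A : κ → Matrix ι ι F) (x : ι → U) :
    act (∑ k ∈ s, A k) x = ∑ k ∈ s, act (A k) x := by
  classical
  induction s using Finset.induction_on with
  | empty => simp [act_zero]
  | insert a s ha ih => rw [Finset.sum_insert ha, Finset.sum_insert ha, act_add, ih]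

variable [DecidableEq ι]

lemma act_one (x : ι → U) : act (1 : Matrix ι ι F) x = x := by
  funext i
  simp [act_apply, Matrix.one_apply]

lemma act_eq_zero {A : Matrix ι ι F} (hA : IsUnit A) {x : ι → U} (h : act A x = 0) : x = 0 := by
  obtain ⟨u, rfl⟩ := hA
  have h1 : act (↑u⁻¹ : Matrix ι ι F) (act (↑u : Matrix ι ι F) x) = 0 := by rw [h, map_zero]
  rwa [← act_mul, Units.inv_mul, act_one] at h1

end Act

/-! ## The radical in the nondegenerate case -/

section Rad

variable {F : Type} [Field F] [Fintype F] {n : ℕ} {β C : Matrix (Fin (2 * n)) (Fin (2 * n)) F}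
  {ε : F} (h : SingerForm n β C ε)

include h

theorem rad_nondeg {W : Type} [AddCommGroup W] [Module F W] [Module.Finite F W]
    (hdim : Module.finrank F W < 2 * n) (b : W →ₗ[F] W →ₗ[F] F)
    (hnd : ∀ e, (∀ u, b u e = 0) → e = 0) (z : Fin (2 * n) → W)
    (hz : ∀ i u, ∑ j, β i j * b u (z j) + ∑ j, β j i * b (z j) u = 0) : z = 0 := by
  -- the operator `T`
  have hinj : Function.Injective b.flip := by
    rw [injective_iff_map_eq_zero]
    intro e he
    exact hnd e fun u => by
      have := LinearMap.congr_fun he u
      simpa using this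
  have hsurj : Function.Surjective b.flip :=
    (LinearMap.injective_iff_surjective_of_finrank_eq_finrank
      (Subspace.dual_finrank_eq (K := F) (V := W)).symm).1 hinj
  set e := LinearEquiv.ofBijective b.flip ⟨hinj, hsurj⟩ with he
  set T : W →ₗ[F] W := e.symm.toLinearMap ∘ₗ b with hT
  have hTb : ∀ w u, b u (T w) = b w u := by
    intro w u
    have h1 : b.flip (T w) = b w := by
      change e (e.symm (b w)) = b w
      exact e.apply_symm_apply _
    have h2 := LinearMap.congr_fun h1 u
    simpa using h2
  -- the equation in `W`
  have heq : ∀ i, ∑ j, β i j • z j + ∑ j, β j i • T (z j) = 0 := by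
    intro i
    apply hnd
    intro u
    rw [map_add, map_sum, map_sum]
    simp only [map_smul, smul_eq_mul, hTb]
    exact hz i u
  set Th : (Fin (2 * n) → W) → (Fin (2 * n) → W) := fun y i => T (y i) with hTh
  have hcomm : ∀ (A : Matrix (Fin (2 * n)) (Fin (2 * n)) F) (y : Fin (2 * n) → W),
      act A (Th y) = Th (act A y) := by
    intro A y
    funext i
    simp only [act_apply, hTh, map_sum, map_smul]
  set y := act β z with hy
  have heq2 : y + ε • act C.transpose (Th y) = 0 := by
    have h1 : act β z + act β.transpose (Th z) = 0 := by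
      funext i
      exact heq i
    rw [h.asym, act_smul, act_mul, hcomm β z] at h1
    exact h1
  have hε : ε * ε = 1 := by
    rcases h.eps with h1 | h1 <;> rw [h1] <;> ring
  have hD : act C.transpose (Th y) = (-ε) • y := by
    have h1 : ε • (y + ε • act C.transpose (Th y)) = 0 := by rw [heq2, smul_zero]
    rw [smul_add, smul_smul, hε, one_smul] at h1
    rw [neg_smul]
    exact eq_neg_of_add_eq_zero_right h1
  have hTsmul : ∀ (c : F) (x : Fin (2 * n) → W), Th (c • x) = c • Th x := by
    intro c x
    funext i
    simp only [hTh, Pi.smul_apply, map_smul]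
  have hDk : ∀ k : ℕ, act (C.transpose ^ k) (Th^[k] y) = (-ε) ^ k • y := by
    intro k
    induction k with
    | zero => rw [pow_zero, pow_zero, one_smul, act_one]; rfl
    | succ k ih =>
      have h1 : ∀ (x : Fin (2 * n) → W) (A : Matrix (Fin (2 * n)) (Fin (2 * n)) F),
          act A (Th^[k] x) = Th^[k] (act A x) := by
        intro x A
        have : ∀ k : ℕ, act A (Th^[k] x) = Th^[k] (act A x) := by
          intro k
          induction k with
          | zero => rfl
          | succ k ih2 => rw [Function.iterate_succ_apply', Function.iterate_succ_apply', hcomm, ih2]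
        exact this k
      rw [pow_succ, act_mul, Function.iterate_succ_apply, h1 (Th y) C.transpose, hD]
      have h2 : ∀ (c : F) (x : Fin (2 * n) → W), Th^[k] (c • x) = c • Th^[k] x := by
        intro c x
        have : ∀ k : ℕ, Th^[k] (c • x) = c • Th^[k] x := by
          intro k
          induction k with
          | zero => rfl
          | succ k ih2 => rw [Function.iterate_succ_apply', Function.iterate_succ_apply', ih2, hTsmul]
        exact this k
      rw [h2, map_smul, ih, smul_smul, pow_succ]
      congr 1
      ring
  -- the polynomial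
  set p := T.charpoly with hp
  have hpm : p.Monic := T.charpoly_monic
  set m := p.natDegree with hm
  have hmdim : m = Module.finrank F W := LinearMap.charpoly_natDegree T
  have hpT : ∑ k ∈ Finset.range (m + 1), p.coeff k • Th^[k] y = 0 := by
    funext i
    have h1 := LinearMap.aeval_self_charpoly T
    rw [aeval_eq_sum_range] at h1
    have h2 := LinearMap.congr_fun h1 (y i)
    rw [LinearMap.sum_apply] at h2
    have h3 : ∀ (k : ℕ), (Th^[k] y) i = (T ^ k) (y i) := by
      intro k
      induction k with
      | zero => rfl
      | succ k ih =>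
        rw [Function.iterate_succ_apply', pow_succ']
        change T ((Th^[k] y) i) = T ((T ^ k) (y i))
        rw [ih]
    rw [Finset.sum_apply, Pi.zero_apply]
    rw [LinearMap.zero_apply] at h2
    rw [← h2]
    apply Finset.sum_congr rfl
    intro k _
    rw [Pi.smul_apply, h3, LinearMap.smul_apply]
  set r : F[X] := ∑ k ∈ Finset.range (m + 1), Polynomial.C (p.coeff k * (-ε) ^ k) * X ^ (m - k)
    with hr
  have hr0 : r.coeff 0 = p.coeff m * (-ε) ^ m := by
    rw [hr, finsetSum_coeff, Finset.sum_eq_single m]
    · rw [Nat.sub_self, pow_zero, mul_one, coeff_C_zero]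
    · intro k hk hkm
      rw [Finset.mem_range] at hk
      rw [coeff_C_mul, coeff_X_pow, if_neg (by omega), mul_zero]
    · intro hm'
      exact absurd (Finset.mem_range.2 (Nat.lt_succ_self m)) hm'
  have hεne : -ε ≠ 0 := by
    intro h0
    have : ε = 0 := neg_eq_zero.1 h0
    rw [this, mul_zero] at hε
    exact zero_ne_one hε
  have hrne : r ≠ 0 := by
    intro h0
    rw [h0, coeff_zero] at hr0
    have h1 : p.coeff m = 1 := hpm.coeff_natDegree
    rw [h1, one_mul] at hr0
    exact pow_ne_zero m hεne hr0.symm
  have hrdeg : r.natDegree < 2 * n := by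
    have h1 : r.natDegree ≤ m := by
      rw [hr]
      apply natDegree_sum_le_of_forall_le
      intro k _
      exact (natDegree_C_mul_X_pow_le _ _).trans (Nat.sub_le _ _)
    omega
  have hunit := h.irr r hrne hrdeg
  have hunitT : IsUnit (aeval C r).transpose := (Matrix.isUnit_transpose _).2 hunit
  have htr : (aeval C r).transpose =
      ∑ k ∈ Finset.range (m + 1), (p.coeff k * (-ε) ^ k) • C.transpose ^ (m - k) := by
    rw [hr, map_sum, Matrix.transpose_sum]
    apply Finset.sum_congr rfl
    intro k _
    rw [map_mul, aeval_C, map_pow, aeval_X, Algebra.algebraMap_eq_smul_one, smul_mul_assoc, one_mul,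
      Matrix.transpose_smul, Matrix.transpose_pow]
  have hy0 : act (aeval C r).transpose y = 0 := by
    rw [htr, act_sum]
    have h1 : ∀ k ∈ Finset.range (m + 1),
        act ((p.coeff k * (-ε) ^ k) • C.transpose ^ (m - k)) y =
        act (C.transpose ^ m) (p.coeff k • Th^[k] y) := by
      intro k hk
      rw [Finset.mem_range] at hk
      have e1 : C.transpose ^ m = C.transpose ^ (m - k) * C.transpose ^ k := by
        rw [← pow_add]; congr 1; omega
      rw [act_smul, e1, act_mul, map_smul, hDk, map_smul, map_smul, smul_smul]
    rw [Finset.sum_congr rfl h1, ← map_sum, hpT, map_zero]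
  have hyz : y = 0 := act_eq_zero hunitT hy0
  exact act_eq_zero h.det_ne (hy ▸ hyz)

end Rad

end Pool.Agent.H20.Refl
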