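import Mathlib

/-!
# Free actions of cyclic groups
-/

namespace Pool.Agent.H20.Refl

/-- If all the powers `σ ^ k`, `0 < k < m`, of a permutation `σ` with `σ ^ m = 1` have no fixed
point then `m` divides the number of points. -/
theorem dvd_card_of_free {X : Type} [Fintype X] (σ : Equiv.Perm X) (m : ℕ) (hm : 0 < m)
    (h1 : σ ^ m = 1) (h2 : ∀ k, 0 < k → k < m → ∀ x, (σ ^ k) x ≠ x) : m ∣ Fintype.card X := by
  classical
  rcases isEmpty_or_nonempty X with hX | ⟨⟨x0⟩⟩
  · rw [Fintype.card_eq_zero]; exact dvd_zero m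
  have hord : orderOf σ = m := by
    rw [orderOf_eq_iff hm]
    refine ⟨h1, ?_⟩
    intro k hk1 hk2 h3
    exact h2 k hk2 hk1 x0 (by rw [h3]; rfl)
  let G := Subgroup.zpowers σ
  have hcard : Fintype.card G = m := by
    rw [Fintype.card_zpowers, hord]
  have key := MulAction.sum_card_fixedBy_eq_card_orbits_mul_card_group G X
  rw [Finset.sum_eq_single (1 : G)] at key
  · have h3 : Fintype.card (MulAction.fixedBy X (1 : G)) = Fintype.card X := by
      apply Fintype.card_congr
      refine (Equiv.subtypeUnivEquiv ?_)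
      intro x
      exact one_smul G x
    rw [h3, hcard] at key
    rw [key]
    exact dvd_mul_left _ _
  · intro g _ hg
    rw [Fintype.card_eq_zero_iff]
    constructor
    rintro ⟨x, hx⟩
    obtain ⟨g, hgm⟩ := g
    have hfin : IsOfFinOrder σ := isOfFinOrder_of_finite σ
    obtain ⟨k, hk, rfl⟩ := (Submonoid.mem_powers_iff g σ).1 (hfin.mem_powers_iff_mem_zpowers.2 hgm)
    have hx' : (σ ^ k) x = x := hx
    have hk0 : k % m ≠ 0 := by
      intro h0
      apply hg
      apply Subtype.ext
      change σ ^ k = 1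
      obtain ⟨c, hc⟩ := Nat.dvd_of_mod_eq_zero h0
      rw [hc, pow_mul, h1, one_pow]
    have hk' : σ ^ k = σ ^ (k % m) := by
      conv_lhs => rw [← Nat.mod_add_div k m, pow_add, pow_mul, h1, one_pow, mul_one]
    rw [hk'] at hx'
    exact h2 (k % m) (Nat.pos_of_ne_zero hk0) (Nat.mod_lt _ hm) x hx'
  · intro h3; exact absurd (Finset.mem_univ _) h3

end Pool.Agent.H20.Refl
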