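import Mathlib
import Pool.Agent.H20.Refl.Act

/-!
# The quadratic form attached to a matrix and a bilinear form
-/

namespace Pool.Agent.H20.Refl

open Pool.Agent.H3.Refl Polynomial Matrix

section Gen

variable {F : Type} [Field F] {ι : Type} [Fintype ι] {U : Type} [AddCommGroup U]
  [Module F U]

/-- The quadratic form `∑ β_ij b(x_i,x_j)`. -/
def qf (β : Matrix ι ι F) (b : U →ₗ[F] U →ₗ[F] F) (x : ι → U) : F :=
  ∑ i, ∑ j, β i j * b (x i) (x j)

/-- Its polar form. -/
def pf (β : Matrix ι ι F) (b : U →ₗ[F] U →ₗ[F] F) (y z : ι → U) : F :=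
  ∑ i, ∑ j, β i j * (b (y i) (z j) + b (z i) (y j))

lemma qf_act (β A : Matrix ι ι F) (b : U →ₗ[F] U →ₗ[F] F) (x : ι → U) :
    qf β b (act A x) = qf (A.transpose * β * A) b x := by
  set G : Matrix ι ι F := Matrix.of fun i j => b (x i) (x j) with hG
  set G' : Matrix ι ι F := Matrix.of fun i j => b (act A x i) (act A x j) with hG'
  have e1 : G' = A * G * A.transpose := by
    ext i j
    simp only [hG', hG, Matrix.of_apply, act_apply, Matrix.mul_apply, map_sum,
      LinearMap.sum_apply, map_smul, LinearMap.smul_apply, smul_eq_mul,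
      Matrix.transpose_apply, Finset.sum_mul, Finset.mul_sum]
    apply Finset.sum_congr rfl
    intro k _
    apply Finset.sum_congr rfl
    intro l _
    ring
  have tr : ∀ (M H : Matrix ι ι F), ∑ i, ∑ j, M i j * H i j = (M.transpose * H).trace := by
    intro M H
    rw [Matrix.trace]
    simp only [Matrix.diag_apply, Matrix.mul_apply, Matrix.transpose_apply]
    rw [Finset.sum_comm]
  have e2 : qf β b (act A x) = (β.transpose * G').trace := tr β G'
  have e3 : qf (A.transpose * β * A) b x = ((A.transpose * β * A).transpose * G).trace :=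
    tr (A.transpose * β * A) G
  rw [e2, e3, e1, Matrix.transpose_mul, Matrix.transpose_mul, Matrix.transpose_transpose]
  rw [← mul_assoc, ← mul_assoc, Matrix.trace_mul_comm]
  congr 1
  simp only [mul_assoc]

lemma qf_smul (c : F) (β : Matrix ι ι F) (b : U →ₗ[F] U →ₗ[F] F) (x : ι → U) :
    qf (c • β) b x = c * qf β b x := by
  simp only [qf, Matrix.smul_apply, smul_eq_mul, Finset.mul_sum, mul_assoc]

lemma qf_zero (β : Matrix ι ι F) (b : U →ₗ[F] U →ₗ[F] F) : qf β b (0 : ι → U) = 0 := by
  simp [qf]

lemma qf_add (β : Matrix ι ι F) (b : U →ₗ[F] U →ₗ[F] F) (y z : ι → U) :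
    qf β b (y + z) = qf β b y + qf β b z + pf β b y z := by
  simp only [qf, pf, Pi.add_apply, map_add, LinearMap.add_apply, ← Finset.sum_add_distrib]
  apply Finset.sum_congr rfl
  intro i _
  apply Finset.sum_congr rfl
  intro j _
  ring

lemma pf_add (β : Matrix ι ι F) (b : U →ₗ[F] U →ₗ[F] F) (y y' z : ι → U) :
    pf β b (y + y') z = pf β b y z + pf β b y' z := by
  simp only [pf, Pi.add_apply, map_add, LinearMap.add_apply, ← Finset.sum_add_distrib]
  apply Finset.sum_congr rfl
  intro i _
  apply Finset.sum_congr rfl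
  intro j _
  ring

lemma pf_smul (β : Matrix ι ι F) (b : U →ₗ[F] U →ₗ[F] F) (c : F) (y z : ι → U) :
    pf β b (c • y) z = c * pf β b y z := by
  simp only [pf, Pi.smul_apply, map_smul, LinearMap.smul_apply, smul_eq_mul, Finset.mul_sum]
  apply Finset.sum_congr rfl
  intro i _
  apply Finset.sum_congr rfl
  intro j _
  ring

variable [DecidableEq ι]

lemma pf_single (β : Matrix ι ι F) (b : U →ₗ[F] U →ₗ[F] F) (i : ι) (u : U) (z : ι → U) :
    pf β b (Pi.single i u) z = ∑ j, β i j * b u (z j) + ∑ j, β j i * b (z j) u := by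
  simp only [pf, mul_add, Finset.sum_add_distrib]
  congr 1
  · rw [Finset.sum_eq_single i]
    · simp
    · intro k _ hk
      apply Finset.sum_eq_zero
      intro j _
      rw [Pi.single_eq_of_ne hk]
      simp
    · intro h; exact absurd (Finset.mem_univ _) h
  · apply Finset.sum_congr rfl
    intro k _
    rw [Finset.sum_eq_single i]
    · simp
    · intro j _ hj
      rw [Pi.single_eq_of_ne hj]
      simp
    · intro h; exact absurd (Finset.mem_univ _) h

end Gen

/-! ## The radical of the polar form -/

section Rad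

variable {F : Type} [Field F] [Fintype F] {n : ℕ} {β C : Matrix (Fin (2 * n)) (Fin (2 * n)) F}
  {ε : F} (h : SingerForm n β C ε)

include h

/-- The radical of the polar form consists of the vectors with entries in `R`. -/
theorem rad_iff {U : Type} [AddCommGroup U] [Module F U] [Module.Finite F U]
    (hdim : Module.finrank F U < 2 * n) (b : U →ₗ[F] U →ₗ[F] F) (R : Submodule F U)
    (hl : ∀ r ∈ R, ∀ u, b r u = 0) (hr : ∀ r ∈ R, ∀ u, b u r = 0)
    (hrad : ∀ e, (∀ u, b u e = 0) → e ∈ R) (z : Fin (2 * n) → U) :
    (∀ y, pf β b y z = 0) ↔ ∀ i, z i ∈ R := by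
  constructor
  · intro hz
    -- the form on the quotient
    have hk : ∀ u, R ≤ LinearMap.ker (b u) := by
      intro u r hrR
      exact hr r hrR u
    let b1 : U →ₗ[F] (U ⧸ R) →ₗ[F] F :=
      { toFun := fun u => R.liftQ (b u) (hk u)
        map_add' := by
          intro x y
          ext w
          simp
        map_smul' := by
          intro c x
          ext w
          simp }
    have hk1 : R ≤ LinearMap.ker b1 := by
      intro r hrR
      rw [LinearMap.mem_ker]
      ext w
      simp only [b1, LinearMap.coe_mk, AddHom.coe_mk, LinearMap.comp_apply, Submodule.mkQ_apply,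
        LinearMap.zero_apply, Submodule.liftQ_apply]
      exact hl r hrR w
    let b2 : (U ⧸ R) →ₗ[F] (U ⧸ R) →ₗ[F] F := R.liftQ b1 hk1
    have hb2 : ∀ u v : U, b2 (Submodule.Quotient.mk u) (Submodule.Quotient.mk v) = b u v := by
      intro u v
      rfl
    have hfr : Module.finrank F (U ⧸ R) < 2 * n := lt_of_le_of_lt (Submodule.finrank_quotient_le R) hdim
    have hnd : ∀ e : U ⧸ R, (∀ u, b2 u e = 0) → e = 0 := by
      intro e he
      obtain ⟨e, rfl⟩ := Submodule.Quotient.mk_surjective R e
      rw [Submodule.Quotient.mk_eq_zero]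
      apply hrad
      intro u
      rw [← hb2]
      exact he _
    have key := rad_nondeg h hfr b2 hnd (fun j => Submodule.Quotient.mk (z j)) (by
      intro i u
      obtain ⟨u, rfl⟩ := Submodule.Quotient.mk_surjective R u
      simp only [hb2]
      have := hz (Pi.single i u)
      rw [pf_single] at this
      exact this)
    intro i
    have := congrFun key i
    rw [Pi.zero_apply, Submodule.Quotient.mk_eq_zero] at this
    exact this
  · intro hz y
    rw [pf]
    apply Finset.sum_eq_zero
    intro i _
    apply Finset.sum_eq_zero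
    intro j _
    rw [hr _ (hz j), hl _ (hz i), add_zero, mul_zero]

end Rad

end Pool.Agent.H20.Refl
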