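import Mathlib
import Pool.Agent.H20.Refl.Qf
import Pool.Agent.H20.Refl.Free

/-!
# Evaluation of the Gauss sums
-/

namespace Pool.Agent.H20.Refl

open Pool.Agent.H3.Refl Polynomial Matrix
open scoped Classical

section Act

variable {F : Type} [Field F] {ι : Type} [Fintype ι] [DecidableEq ι] {U : Type} [AddCommGroup U]
  [Module F U]

/-- The action of an invertible matrix. -/
def actEquiv (u : (Matrix ι ι F)ˣ) : (ι → U) ≃ (ι → U) where
  toFun := act (u : Matrix ι ι F)
  invFun := act (↑u⁻¹ : Matrix ι ι F)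
  left_inv x := by rw [← act_mul, Units.inv_mul, act_one]
  right_inv x := by rw [← act_mul, Units.mul_inv, act_one]

lemma actEquiv_apply (u : (Matrix ι ι F)ˣ) (x : ι → U) :
    actEquiv u x = act (u : Matrix ι ι F) x := rfl

end Act

variable {F : Type} [Field F] [Fintype F] {n : ℕ} {β C : Matrix (Fin (2 * n)) (Fin (2 * n)) F}
  {ε : F}

section Count

variable {U : Type} [AddCommGroup U] [Module F U] [Fintype U]

/-- The number of representations of `α`. -/
noncomputable def N (β : Matrix (Fin (2 * n)) (Fin (2 * n)) F) (b : U →ₗ[F] U →ₗ[F] F) (α : F) :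
    ℕ :=
  Fintype.card {x : Fin (2 * n) → U // qf β b x = α}

lemma N_eq (h : SingerForm n β C ε) (b : U →ₗ[F] U →ₗ[F] F) (α : F) (hα : α ≠ 0) :
    N β b α = N β b 1 := by
  obtain ⟨f, hf⟩ := exists_norm h α hα
  have hne : aeval C f ≠ 0 := by
    intro h0
    rw [h0, zero_pow (Nat.succ_ne_zero _)] at hf
    have h1 := one_ne_zero_mat h
    apply h1
    have h2 : α⁻¹ • (α • (1 : Matrix (Fin (2 * n)) (Fin (2 * n)) F)) = 0 := by
      rw [← hf, smul_zero]
    rwa [smul_smul, inv_mul_cancel₀ hα, one_smul] at h2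
  obtain ⟨u, hu⟩ := (aeval_zero_or_unit h f).resolve_left hne
  have hn := norm_identity h f
  rw [hf, mul_smul_comm, mul_one] at hn
  unfold N
  symm
  apply Fintype.card_congr
  apply Equiv.subtypeEquiv (actEquiv u)
  intro x
  rw [actEquiv_apply, hu, qf_act, hn, qf_smul]
  constructor
  · intro h1; rw [h1, mul_one]
  · intro h1
    have h2 : α * (qf β b x - 1) = 0 := by rw [mul_sub, h1, mul_one, sub_self]
    rcases mul_eq_zero.1 h2 with h3 | h3
    · exact absurd h3 hα
    · exact sub_eq_zero.1 h3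

lemma sum_eq_sub (h : SingerForm n β C ε) (ψ : AddChar F ℂ) (hψ : ψ ≠ 1)
    (b : U →ₗ[F] U →ₗ[F] F) :
    ∑ x : Fin (2 * n) → U, ψ (qf β b x) = (N β b 0 : ℂ) - N β b 1 := by
  have h1 : ∑ x : Fin (2 * n) → U, ψ (qf β b x) = ∑ α : F, (N β b α : ℂ) * ψ α := by
    rw [← Finset.sum_fiberwise (Finset.univ) (fun x => qf β b x) (fun x => ψ (qf β b x))]
    apply Finset.sum_congr rfl
    intro α _
    have h2 : ∀ x ∈ Finset.univ.filter (fun x : Fin (2 * n) → U => qf β b x = α),
        ψ (qf β b x) = ψ α := by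
      intro x hx
      rw [(Finset.mem_filter.1 hx).2]
    rw [Finset.sum_congr rfl h2, Finset.sum_const, nsmul_eq_mul, N, Fintype.card_subtype]
  have h2 : ∑ α : F, (N β b α : ℂ) * ψ α =
      ∑ α : F, ((N β b 1 : ℂ) * ψ α + if α = 0 then ((N β b 0 : ℂ) - N β b 1) else 0) := by
    apply Finset.sum_congr rfl
    intro α _
    by_cases hα : α = 0
    · rw [if_pos hα, hα, AddChar.map_zero_eq_one]; ring
    · rw [if_neg hα, N_eq h b α hα, add_zero]
  rw [h1, h2, Finset.sum_add_distrib, ← Finset.mul_sum, AddChar.sum_eq_zero_of_ne_one hψ, mul_zero,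
    zero_add, Finset.sum_ite_eq' Finset.univ (0 : F), if_pos (Finset.mem_univ _)]

/-- The nonzero representations of `α` are permuted freely by `C`. -/
lemma dvd_card (h : SingerForm n β C ε) (b : U →ₗ[F] U →ₗ[F] F) (α : F) :
    Fintype.card F ^ n + 1 ∣
      Fintype.card {x : Fin (2 * n) → U // qf β b x = α ∧ x ≠ 0} := by
  have hCu : IsUnit C := by
    have h1 := C_pow h
    rw [pow_succ] at h1
    exact IsUnit.of_mul_eq_one_right _ h1
  obtain ⟨u, hu⟩ := hCu
  let σ : Equiv.Perm {x : Fin (2 * n) → U // qf β b x = α ∧ x ≠ 0} :=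
    Equiv.subtypeEquiv (actEquiv u) (by
      intro x
      rw [actEquiv_apply, hu, qf_act, h.isom]
      constructor
      · rintro ⟨h1, h2⟩
        refine ⟨h1, fun h3 => h2 ?_⟩
        exact act_eq_zero (hu ▸ u.isUnit) h3
      · rintro ⟨h1, h2⟩
        refine ⟨h1, fun h3 => h2 ?_⟩
        rw [h3, map_zero])
  have hσ : ∀ (k : ℕ) (x), (((σ ^ k) x : {x : Fin (2 * n) → U // qf β b x = α ∧ x ≠ 0}) :
      Fin (2 * n) → U) = act (C ^ k) (x : Fin (2 * n) → U) := by
    intro k
    induction k with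
    | zero => intro x; rw [pow_zero, pow_zero, act_one]; rfl
    | succ k ih =>
      intro x
      rw [pow_succ', pow_succ', act_mul, ← ih, ← hu]
      rfl
  apply dvd_card_of_free σ _ (Nat.succ_pos _)
  · ext1 x
    apply Subtype.ext
    rw [hσ, C_pow h, act_one]
    rfl
  · intro k hk1 hk2 x hx
    have h1 := hσ k x
    rw [hx] at h1
    have h2 : act (C ^ k - 1) (x : Fin (2 * n) → U) = 0 := by
      have h3 : act (C ^ k - 1 + 1) (x : Fin (2 * n) → U) =
          act (C ^ k - 1) (x : Fin (2 * n) → U) + act 1 (x : Fin (2 * n) → U) := act_add _ _ _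
      rw [sub_add_cancel, ← h1, act_one] at h3
      exact (right_eq_add.1 h3)
    have h3 : aeval C ((X : F[X]) ^ k - 1) = C ^ k - 1 := by
      rw [map_sub, map_pow, aeval_X, map_one]
    rcases aeval_zero_or_unit h ((X : F[X]) ^ k - 1) with h4 | h4
    · rw [h3, sub_eq_zero] at h4
      have h5 := orderOf_dvd_of_pow_eq_one h4
      rw [h.order] at h5
      exact absurd (Nat.le_of_dvd hk1 h5) (by omega)
    · rw [h3] at h4
      exact x.2.2 (act_eq_zero h4 h2)

lemma dvd_N1 (h : SingerForm n β C ε) (b : U →ₗ[F] U →ₗ[F] F) :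
    Fintype.card F ^ n + 1 ∣ N β b 1 := by
  have h1 := dvd_card (β := β) (C := C) h b 1
  have h2 : N β b 1 = Fintype.card {x : Fin (2 * n) → U // qf β b x = 1 ∧ x ≠ 0} := by
    unfold N
    apply Fintype.card_congr
    apply Equiv.subtypeEquivRight
    intro x
    constructor
    · intro hx
      refine ⟨hx, fun h0 => ?_⟩
      rw [h0, qf_zero] at hx
      exact zero_ne_one hx
    · intro hx; exact hx.1
  rwa [h2]

lemma dvd_N0 (h : SingerForm n β C ε) (b : U →ₗ[F] U →ₗ[F] F) :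
    ∃ k, N β b 0 = (Fintype.card F ^ n + 1) * k + 1 := by
  obtain ⟨k, hk⟩ := dvd_card (β := β) (C := C) h b 0
  refine ⟨k, ?_⟩
  rw [← hk]
  unfold N
  rw [Fintype.card_subtype, Fintype.card_subtype]
  have h2 : Finset.univ.filter (fun x : Fin (2 * n) → U => qf β b x = 0) =
      insert 0 (Finset.univ.filter (fun x : Fin (2 * n) → U => qf β b x = 0 ∧ x ≠ 0)) := by
    ext x
    rw [Finset.mem_insert, Finset.mem_filter, Finset.mem_filter]
    constructor
    · rintro ⟨_, h1⟩
      by_cases hx : x = 0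
      · left; exact hx
      · right; exact ⟨Finset.mem_univ _, h1, hx⟩
    · rintro (h1 | ⟨_, h1, _⟩)
      · rw [h1]; exact ⟨Finset.mem_univ _, qf_zero _ _⟩
      · exact ⟨Finset.mem_univ _, h1⟩
  rw [h2, Finset.card_insert_of_notMem]
  intro h3
  exact (Finset.mem_filter.1 h3).2.2 rfl

end Count

section Modulus

variable {U : Type} [AddCommGroup U] [Module F U] [Fintype U]

lemma inner_sum (h : SingerForm n β C ε) (ψ : AddChar F ℂ) (hψ : ψ ≠ 1)
    (hdim : Module.finrank F U < 2 * n) (b : U →ₗ[F] U →ₗ[F] F) (R : Submodule F U)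
    (hl : ∀ r ∈ R, ∀ u, b r u = 0) (hr : ∀ r ∈ R, ∀ u, b u r = 0)
    (hrad : ∀ e, (∀ u, b u e = 0) → e ∈ R) (z : Fin (2 * n) → U) :
    ∑ y : Fin (2 * n) → U, ψ (pf β b y z) =
      if ∀ i, z i ∈ R then (Fintype.card U : ℂ) ^ (2 * n) else 0 := by
  have hfin : Module.Finite F U := Module.Finite.of_finite
  have hri := rad_iff h hdim b R hl hr hrad z
  split_ifs with hz
  · have h1 := hri.2 hz
    simp only [h1, AddChar.map_zero_eq_one, Finset.sum_const, nsmul_eq_mul, mul_one,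
      Finset.card_univ, Fintype.card_pi, Finset.prod_const, Fintype.card_fin]
    push_cast
    ring
  · have h1 : ∃ y, pf β b y z ≠ 0 := by
      by_contra hcon
      push Not at hcon
      exact hz (hri.1 hcon)
    obtain ⟨y0, hy0⟩ := h1
    let φ : (Fin (2 * n) → U) →+ F :=
      { toFun := fun y => pf β b y z
        map_zero' := by
          have := pf_smul β b 0 (0 : Fin (2 * n) → U) z
          rwa [zero_smul, zero_mul] at this
        map_add' := fun y y' => pf_add β b y y' z }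
    have h2 : ∑ y : Fin (2 * n) → U, ψ (pf β b y z) =
        ∑ y : Fin (2 * n) → U, (ψ.compAddMonoidHom φ) y := rfl
    rw [h2]
    apply AddChar.sum_eq_zero_of_ne_one
    intro h3
    apply hψ
    ext a
    have h4 := DFunLike.congr_fun h3 ((a / pf β b y0 z) • y0)
    rw [AddChar.compAddMonoidHom_apply] at h4
    change ψ (pf β b ((a / pf β b y0 z) • y0) z) = 1 at h4
    rw [pf_smul, div_mul_cancel₀ _ hy0] at h4
    exact h4

lemma norm_sq (h : SingerForm n β C ε) (ψ : AddChar F ℂ) (hψ : ψ ≠ 1)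
    (hdim : Module.finrank F U < 2 * n) (b : U →ₗ[F] U →ₗ[F] F) (R : Submodule F U)
    (hl : ∀ r ∈ R, ∀ u, b r u = 0) (hr : ∀ r ∈ R, ∀ u, b u r = 0)
    (hrad : ∀ e, (∀ u, b u e = 0) → e ∈ R) :
    (∑ x : Fin (2 * n) → U, ψ (qf β b x)) *
      (starRingEnd ℂ) (∑ x : Fin (2 * n) → U, ψ (qf β b x)) =
      (Fintype.card U : ℂ) ^ (2 * n) * (Fintype.card R : ℂ) ^ (2 * n) := by
  have h1 : (starRingEnd ℂ) (∑ x : Fin (2 * n) → U, ψ (qf β b x)) =
      ∑ y : Fin (2 * n) → U, ψ (- qf β b y) := by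
    rw [map_sum]
    apply Finset.sum_congr rfl
    intro y _
    rw [AddChar.map_neg_eq_conj]
  rw [h1, Finset.sum_mul_sum, Finset.sum_comm]
  have h2 : ∀ y : Fin (2 * n) → U, ∑ x : Fin (2 * n) → U, ψ (qf β b x) * ψ (- qf β b y) =
      ∑ z : Fin (2 * n) → U, ψ (qf β b z) * ψ (pf β b y z) := by
    intro y
    rw [← Equiv.sum_comp (Equiv.addLeft y)]
    apply Finset.sum_congr rfl
    intro z _
    rw [Equiv.coe_addLeft, ← AddChar.map_add_eq_mul, ← AddChar.map_add_eq_mul, qf_add]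
    congr 1
    ring
  rw [Finset.sum_congr rfl fun y _ => h2 y, Finset.sum_comm]
  simp only [← Finset.mul_sum, inner_sum h ψ hψ hdim b R hl hr hrad]
  have h3 : ∀ z : Fin (2 * n) → U,
      ψ (qf β b z) * (if ∀ i, z i ∈ R then (Fintype.card U : ℂ) ^ (2 * n) else 0) =
      if ∀ i, z i ∈ R then (Fintype.card U : ℂ) ^ (2 * n) else 0 := by
    intro z
    split_ifs with hz
    · have h4 : qf β b z = 0 := by
        rw [qf]
        apply Finset.sum_eq_zero
        intro i _
        apply Finset.sum_eq_zero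
        intro j _
        rw [hl _ (hz i), mul_zero]
      rw [h4, AddChar.map_zero_eq_one, one_mul]
    · rw [mul_zero]
  rw [Finset.sum_congr rfl fun z _ => h3 z, ← Finset.sum_filter, Finset.sum_const, nsmul_eq_mul,
    mul_comm]
  congr 1
  have h5 : (Finset.univ.filter fun z : Fin (2 * n) → U => ∀ i, z i ∈ R).card =
      Fintype.card (Fin (2 * n) → R) := by
    rw [← Fintype.card_subtype]
    exact Fintype.card_congr (Equiv.subtypePiEquivPi)
  rw [h5, Fintype.card_pi, Finset.prod_const, Finset.card_univ, Fintype.card_fin]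
  push_cast
  rfl

/-- The evaluation of the Gauss sum. -/
theorem gauss_eval (h : SingerForm n β C ε) (ψ : AddChar F ℂ) (hψ : ψ ≠ 1)
    (hdim : Module.finrank F U < 2 * n) (b : U →ₗ[F] U →ₗ[F] F) (R : Submodule F U)
    (hl : ∀ r ∈ R, ∀ u, b r u = 0) (hr : ∀ r ∈ R, ∀ u, b u r = 0)
    (hrad : ∀ e, (∀ u, b u e = 0) → e ∈ R) :
    ∑ x : Fin (2 * n) → U, ψ (qf β b x) =
      (-(Fintype.card F : ℂ) ^ n) ^ (Module.finrank F R + Module.finrank F U) := by
  set q := Fintype.card F with hq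
  set d := Module.finrank F R + Module.finrank F U with hd
  have hq2 : 2 ≤ q := Fintype.one_lt_card
  have hn := h.n_pos
  have hQ2 : 2 ≤ q ^ n := by
    calc 2 ≤ q := hq2
      _ = q ^ 1 := (pow_one q).symm
      _ ≤ q ^ n := Nat.pow_le_pow_right (by omega) hn
  obtain ⟨k1, hk1⟩ := dvd_N1 (β := β) (C := C) h b
  obtain ⟨k0, hk0⟩ := dvd_N0 (β := β) (C := C) h b
  have hS := sum_eq_sub h ψ hψ b
  have hnorm := norm_sq h ψ hψ hdim b R hl hr hrad
  set a : ℤ := (N β b 0 : ℤ) - N β b 1 with ha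
  have hSa : ∑ x : Fin (2 * n) → U, ψ (qf β b x) = (a : ℂ) := by
    rw [hS, ha]; push_cast; rfl
  rw [hSa] at hnorm ⊢
  have hconj : (starRingEnd ℂ) (a : ℂ) = (a : ℂ) := map_intCast _ _
  rw [hconj] at hnorm
  have hcU : Fintype.card U = q ^ Module.finrank F U := Module.card_eq_pow_finrank
  have hcR : Fintype.card R = q ^ Module.finrank F R := Module.card_eq_pow_finrank
  have hsq : a * a = ((q : ℤ) ^ n) ^ d * ((q : ℤ) ^ n) ^ d := by
    have h1 : ((a * a : ℤ) : ℂ) = ((((q : ℤ) ^ n) ^ d * ((q : ℤ) ^ n) ^ d : ℤ) : ℂ) := by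
      push_cast
      rw [hnorm, hcU, hcR, hd]
      push_cast
      ring
    exact_mod_cast h1
  have hneg : (-((q : ℤ) ^ n)) ^ d * (-((q : ℤ) ^ n)) ^ d =
      ((q : ℤ) ^ n) ^ d * ((q : ℤ) ^ n) ^ d := by
    rw [← mul_pow, ← mul_pow, neg_mul_neg]
  rw [← hneg] at hsq
  have hmod : ((q : ℤ) ^ n + 1) ∣ (-((q : ℤ) ^ n)) ^ d - 1 := by
    have h1 := sub_dvd_pow_sub_pow (-((q : ℤ) ^ n)) 1 d
    rw [one_pow] at h1
    have h2 : -((q : ℤ) ^ n) - 1 = -((q : ℤ) ^ n + 1) := by ring
    rw [h2, neg_dvd] at h1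
    exact h1
  have hmoda : ((q : ℤ) ^ n + 1) ∣ a - 1 := by
    rw [ha, hk0, hk1]
    refine ⟨(k0 : ℤ) - k1, ?_⟩
    push_cast
    ring
  rcases mul_self_eq_mul_self_iff.1 hsq with h1 | h1
  · rw [h1]
    push_cast
    rfl
  · exfalso
    have h2 : ((q : ℤ) ^ n + 1) ∣ 2 := by
      have h3 := dvd_add hmod hmoda
      rw [h1] at h3
      have h4 : (-((q : ℤ) ^ n)) ^ d - 1 + (-(-((q : ℤ) ^ n)) ^ d - 1) = -2 := by ring
      rw [h4, dvd_neg] at h3
      exact h3
    have h3 := Int.le_of_dvd (by norm_num) h2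
    have h4 : (2 : ℤ) ≤ (q : ℤ) ^ n := by exact_mod_cast hQ2
    omega

end Modulus

end Pool.Agent.H20.Refl
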